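import Mathlib

namespace Pool.Agent.Helper7_UD

/-- The real field `ℚ(√3, √11)`, i.e. the subfield of `ℝ` generated over `ℚ` by `√3` and `√11`. -/
noncomputable def K : IntermediateField ℚ ℝ := IntermediateField.adjoin ℚ {Real.sqrt 3, Real.sqrt 11}

/-- The unit distance graph on `F × F` for a subfield `F` of `ℝ`: two points are adjacent exactly
when their Euclidean distance is `1`. -/
def unitDistanceGraph (F : IntermediateField ℚ ℝ) : SimpleGraph (F × F) where
  Adj p q := ((p.1 : ℝ) - (q.1 : ℝ)) ^ 2 + ((p.2 : ℝ) - (q.2 : ℝ)) ^ 2 = 1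
  symm := ⟨fun p q h => by rw [← h]; ring⟩
  loopless := ⟨fun p h => by simp at h⟩

end Pool.Agent.Helper7_UD
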