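import Pool.Agent.Helper7_UD.TwoAdic

namespace Pool.Agent.Helper7_UD

open IntermediateField

lemma sqrt3_mem : Real.sqrt 3 ∈ K := subset_adjoin _ _ (by simp)
lemma sqrt11_mem : Real.sqrt 11 ∈ K := subset_adjoin _ _ (by simp)

/-- `√3` as an element of `K`. -/
noncomputable def r3 : K := ⟨Real.sqrt 3, sqrt3_mem⟩
/-- `√11` as an element of `K`. -/
noncomputable def r11 : K := ⟨Real.sqrt 11, sqrt11_mem⟩

lemma r3_sq : r3 ^ 2 = 3 := by
  apply Subtype.ext
  have h1 : (((3 : ℕ) : K) : ℝ) = ((3 : ℕ) : ℝ) := by push_cast; rfl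
  have h2 : ((3 : K) : ℝ) = 3 := by exact_mod_cast h1
  rw [h2]
  simp [r3]

lemma r11_sq : r11 ^ 2 = 11 := by
  apply Subtype.ext
  have h1 : (((11 : ℕ) : K) : ℝ) = ((11 : ℕ) : ℝ) := by push_cast; rfl
  have h2 : ((11 : K) : ℝ) = 11 := by exact_mod_cast h1
  rw [h2]
  simp [r11]

lemma isAlg : Algebra.IsAlgebraic ℚ K := by
  apply IntermediateField.isAlgebraic_adjoin
  intro x hx
  have h3 : IsIntegral ℚ (3 : ℝ) := by
    have := isIntegral_algebraMap (R := ℚ) (A := ℝ) (x := 3)
    simpa using this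
  have h11 : IsIntegral ℚ (11 : ℝ) := by
    have := isIntegral_algebraMap (R := ℚ) (A := ℝ) (x := 11)
    simpa using this
  rcases hx with rfl | rfl
  · refine IsIntegral.of_pow (n := 2) (by norm_num) ?_
    rw [Real.sq_sqrt (by norm_num)]
    exact h3
  · refine IsIntegral.of_pow (n := 2) (by norm_num) ?_
    rw [Real.sq_sqrt (by norm_num)]
    exact h11

noncomputable instance : Algebra ℚ (AlgebraicClosure ℚ_[2]) := inferInstance

lemma exists_coords : ∃ p q : K → ℚ_[2], (∀ x y, p (x - y) = p x - p y) ∧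
    (∀ x y, q (x - y) = q x - q y) ∧ (∀ x y, p (x * y) = p x * p y + 3 * (q x * q y)) ∧
    (∀ x y, q (x * y) = p x * q y + q x * p y) ∧ p 1 = 1 ∧ q 1 = 0 := by
  have := isAlg
  let τ : K →ₐ[ℚ] AlgebraicClosure ℚ_[2] := IsAlgClosed.lift
  set ι : ℚ_[2] →+* AlgebraicClosure ℚ_[2] := algebraMap _ _ with hι
  have hinj : Function.Injective ι := (algebraMap ℚ_[2] (AlgebraicClosure ℚ_[2])).injective
  set θ := τ r3 with hθ
  have hθ2 : θ ^ 2 = 3 := by rw [hθ, ← map_pow, r3_sq, map_ofNat]
  have hφ2 : (τ r11) ^ 2 = 11 := by rw [← map_pow, r11_sq, map_ofNat]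
  obtain ⟨ρ, hρ⟩ := exists_sq_33
  have hρ' : (ι ρ) ^ 2 = 33 := by rw [← map_pow, hρ, map_ofNat]
  have hθ0 : θ ≠ 0 := by
    intro h
    rw [h] at hθ2
    norm_num at hθ2
  have huniq : ∀ a b a' b' : ℚ_[2], ι a + ι b * θ = ι a' + ι b' * θ → a = a' ∧ b = b' := by
    intro a b a' b' h
    by_cases hb : b = b'
    · subst hb
      exact ⟨hinj (add_right_cancel h), rfl⟩
    · exfalso
      have h1 : ι (b' - b) * θ = ι (a - a') := by
        rw [map_sub, map_sub]
        linear_combination -h
      have h2 : ι ((b' - b) ^ 2 * 3) = ι ((a - a') ^ 2) := by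
        rw [map_mul, map_pow, map_pow, ← h1, map_ofNat, mul_pow, hθ2]
      have h3 := hinj h2
      have h4 : b' - b ≠ 0 := sub_ne_zero.2 (Ne.symm hb)
      apply not_sq_three ((a - a') / (b' - b))
      rw [div_pow, ← h3]
      field_simp
  have hex : ∀ x : K, ∃ a b : ℚ_[2], τ x = ι a + ι b * θ := by
    intro x
    have : ∀ (y : ℝ) (hy : y ∈ K), ∃ a b : ℚ_[2], τ ⟨y, hy⟩ = ι a + ι b * θ := by
      intro y hy
      refine IntermediateField.adjoin_induction (F := ℚ) (s := {Real.sqrt 3, Real.sqrt 11})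
        (p := fun y hy => ∃ a b : ℚ_[2], τ ⟨y, hy⟩ = ι a + ι b * θ) ?_ ?_ ?_ ?_ ?_ hy
      · rintro x (rfl | rfl)
        · exact ⟨0, 1, by rw [map_zero, map_one, zero_add, one_mul]; rfl⟩
        · have h1 : (τ r11 * θ - ι ρ) * (τ r11 * θ + ι ρ) = 0 := by
            have : (τ r11 * θ - ι ρ) * (τ r11 * θ + ι ρ) = (τ r11) ^ 2 * θ ^ 2 - (ι ρ) ^ 2 := by ring
            rw [this, hφ2, hθ2, hρ']
            norm_num
          have h3 : (3 : AlgebraicClosure ℚ_[2]) ≠ 0 := by
            rw [← hθ2]; exact pow_ne_zero _ hθ0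
          rcases mul_eq_zero.1 h1 with h | h
          · refine ⟨0, ρ / 3, ?_⟩
            have h4 : τ r11 = ι ρ / 3 * θ := by
              have : τ r11 * θ = ι ρ := sub_eq_zero.1 h
              rw [← this]
              rw [div_mul_eq_mul_div, eq_div_iff h3, ← hθ2]
              ring
            rw [map_zero, zero_add, map_div₀, map_ofNat]
            exact h4
          · refine ⟨0, -ρ / 3, ?_⟩
            have h4 : τ r11 = -ι ρ / 3 * θ := by
              have : τ r11 * θ = - ι ρ := eq_neg_of_add_eq_zero_left h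
              rw [← this]
              rw [div_mul_eq_mul_div, eq_div_iff h3, ← hθ2]
              ring
            rw [map_zero, zero_add, map_div₀, map_ofNat, map_neg]
            exact h4
      · intro x
        refine ⟨(x : ℚ_[2]), 0, ?_⟩
        rw [map_zero, zero_mul, add_zero]
        have e1 : (⟨algebraMap ℚ ℝ x, IntermediateField.algebraMap_mem _ x⟩ : K) =
          algebraMap ℚ K x := rfl
        have e2 : (x : ℚ_[2]) = algebraMap ℚ ℚ_[2] x := rfl
        rw [e2, hι, ← IsScalarTower.algebraMap_apply]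
        exact τ.commutes x
      · rintro x y hx hy ⟨a, b, h⟩ ⟨a', b', h'⟩
        refine ⟨a + a', b + b', ?_⟩
        have e : (⟨x + y, add_mem hx hy⟩ : K) = ⟨x, hx⟩ + ⟨y, hy⟩ := rfl
        have e2 : τ (⟨x + y, add_mem hx hy⟩ : K) = τ ⟨x, hx⟩ + τ ⟨y, hy⟩ := by
          rw [e, map_add]
        refine e2.trans ?_
        rw [h, h', map_add, map_add]
        ring
      · rintro x hx ⟨a, b, h⟩
        have e : (⟨x⁻¹, inv_mem hx⟩ : K) = (⟨x, hx⟩ : K)⁻¹ := rfl
        have e2 : τ (⟨x⁻¹, inv_mem hx⟩ : K) = (τ ⟨x, hx⟩)⁻¹ := by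
          rw [e, map_inv₀]
        by_cases h0 : a = 0 ∧ b = 0
        · refine ⟨0, 0, ?_⟩
          refine e2.trans ?_
          rw [h, h0.1, h0.2]
          simp
        · have hN : a ^ 2 - 3 * b ^ 2 ≠ 0 := by
            intro hN
            by_cases hb : b = 0
            · apply h0
              subst hb
              refine ⟨?_, rfl⟩
              have : a ^ 2 = 0 := by linear_combination hN
              exact pow_eq_zero_iff (by norm_num) |>.1 this
            · apply not_sq_three (a / b)
              rw [div_pow, div_eq_iff (pow_ne_zero _ hb)]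
              linear_combination hN
          refine ⟨a / (a ^ 2 - 3 * b ^ 2), -b / (a ^ 2 - 3 * b ^ 2), ?_⟩
          refine e2.trans ?_
          rw [h]
          apply inv_eq_of_mul_eq_one_right
          have hN' : (ι a) ^ 2 - 3 * (ι b) ^ 2 ≠ 0 := by
            have : ι (a ^ 2 - 3 * b ^ 2) ≠ 0 := by
              intro h00
              apply hN
              apply hinj
              rw [h00, map_zero]
            rwa [map_sub, map_mul, map_pow, map_pow, map_ofNat] at this
          simp only [map_div₀, map_sub, map_mul, map_pow, map_neg, map_ofNat]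
          have e3 : (ι a + ι b * θ) * (ι a / (ι a ^ 2 - 3 * ι b ^ 2) +
              -ι b / (ι a ^ 2 - 3 * ι b ^ 2) * θ) =
              (ι a ^ 2 - ι b ^ 2 * θ ^ 2) / (ι a ^ 2 - 3 * ι b ^ 2) := by ring
          rw [e3, div_eq_one_iff_eq hN', hθ2]
          ring
      · rintro x y hx hy ⟨a, b, h⟩ ⟨a', b', h'⟩
        refine ⟨a * a' + 3 * (b * b'), a * b' + b * a', ?_⟩
        have e : (⟨x * y, mul_mem hx hy⟩ : K) = ⟨x, hx⟩ * ⟨y, hy⟩ := rfl
        have e2 : τ (⟨x * y, mul_mem hx hy⟩ : K) = τ ⟨x, hx⟩ * τ ⟨y, hy⟩ := by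
          rw [e, map_mul]
        refine e2.trans ?_
        rw [h, h']
        simp only [map_add, map_mul, map_ofNat]
        linear_combination (ι b * ι b') * hθ2
    exact this x.1 x.2
  choose p q hpq using hex
  refine ⟨p, q, ?_, ?_, ?_, ?_, ?_, ?_⟩
  · intro x y
    refine (huniq _ (q (x - y)) _ (q x - q y) ?_).1
    rw [← hpq, map_sub, map_sub, map_sub, hpq x, hpq y]
    ring
  · intro x y
    refine (huniq (p (x - y)) _ (p x - p y) _ ?_).2
    rw [← hpq, map_sub, map_sub, map_sub, hpq x, hpq y]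
    ring
  · intro x y
    refine (huniq _ (q (x * y)) _ (p x * q y + q x * p y) ?_).1
    rw [← hpq, map_mul, hpq x, hpq y]
    simp only [map_add, map_mul, map_ofNat]
    linear_combination (ι (q x) * ι (q y)) * hθ2
  · intro x y
    refine (huniq (p (x * y)) _ (p x * p y + 3 * (q x * q y)) _ ?_).2
    rw [← hpq, map_mul, hpq x, hpq y]
    simp only [map_add, map_mul, map_ofNat]
    linear_combination (ι (q x) * ι (q y)) * hθ2
  · refine (huniq _ (q 1) _ 0 ?_).1
    rw [← hpq, map_one]
    simp
  · refine (huniq (p 1) _ 1 _ ?_).2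
    rw [← hpq, map_one]
    simp

theorem colorable_four : (unitDistanceGraph K).Colorable 4 := by
  obtain ⟨p, q, hps, hqs, hpm, hqm, hp1, hq1⟩ := exists_coords
  obtain ⟨f, hf⟩ := exists_digit
  let s : K × K → K := fun P => P.1 + P.2 * (r3 * 3⁻¹)
  let t : K × K → K := fun P => 2 * P.2 * (r3 * 3⁻¹)
  let c : K × K → ZMod 2 × ZMod 2 := fun P =>
    (f (p (s P) + q (s P)), f (p (t P) + q (t P)))
  have hc : ∀ {P Q : K × K}, (unitDistanceGraph K).Adj P Q → c P ≠ c Q := by
    intro P Q hPQ hcc
    have h1 : (P.1 - Q.1) ^ 2 + (P.2 - Q.2) ^ 2 = 1 := by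
      apply Subtype.ext
      simpa [unitDistanceGraph] using hPQ
    set S : K := s P - s Q with hS
    set T : K := t P - t Q with hT
    have h2 : S * S - S * T + T * T = 1 := by
      simp only [hS, hT, s, t]
      have h3 := r3_sq
      have : (3 : K)⁻¹ * 3 = 1 := inv_mul_cancel₀ (by norm_num)
      set i3 : K := 3⁻¹
      have h4 : (r3 * i3) ^ 2 = i3 := by
        rw [mul_pow, h3, sq]
        linear_combination i3 * this
      set w : K := r3 * i3
      linear_combination h1 + 3 * (P.2 - Q.2) ^ 2 * h4 + (P.2 - Q.2) ^ 2 * this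
    have e1 : p S ^ 2 + 3 * q S ^ 2 - (p S * p T + 3 * (q S * q T)) + (p T ^ 2 + 3 * q T ^ 2) = 1 := by
      have hadd : ∀ x y, p (x + y) = p x + p y := by
        intro x y
        have h0 : p 0 = 0 := by
          have := hps 0 0
          simpa using this
        have h5 : p (-y) = - p y := by
          have := hps 0 y
          rw [h0, zero_sub, zero_sub] at this
          exact this
        have := hps x (-y)
        rw [sub_neg_eq_add, h5, sub_neg_eq_add] at this
        exact this
      have := congrArg p h2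
      rw [hadd, hps, hpm, hpm, hpm, hp1] at this
      linear_combination this
    have e2 : 2 * (p S * q S) - (p S * q T + q S * p T) + 2 * (p T * q T) = 0 := by
      have hadd : ∀ x y, q (x + y) = q x + q y := by
        intro x y
        have h0 : q 0 = 0 := by
          have := hqs 0 0
          simpa using this
        have h5 : q (-y) = - q y := by
          have := hqs 0 y
          rw [h0, zero_sub, zero_sub] at this
          exact this
        have := hqs x (-y)
        rw [sub_neg_eq_add, h5, sub_neg_eq_add] at this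
        exact this
      have := congrArg q h2
      rw [hadd, hqs, hqm, hqm, hqm, hq1] at this
      linear_combination this
    obtain ⟨n1, n2, n3, n4⟩ := integral_of_eq e1 e2
    set S1 : ℤ_[2] := ⟨p S, n1⟩ with hS1
    set S2 : ℤ_[2] := ⟨q S, n2⟩ with hS2
    set T1 : ℤ_[2] := ⟨p T, n3⟩ with hT1
    set T2 : ℤ_[2] := ⟨q T, n4⟩ with hT2
    have f1 : S1 ^ 2 + 3 * S2 ^ 2 - (S1 * T1 + 3 * (S2 * T2)) + (T1 ^ 2 + 3 * T2 ^ 2) = 1 := by
      apply Subtype.ext
      have h3 : ((3 : ℤ_[2]) : ℚ_[2]) = 3 := by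
        have := PadicInt.coe_natCast (p := 2) 3
        exact_mod_cast this
      push_cast
      rw [h3]
      simp only [hS1, hS2, hT1, hT2]
      exact e1
    have f2 := congrArg (PadicInt.toZMod (p := 2)) f1
    simp only [map_add, map_sub, map_mul, map_pow, map_ofNat, map_one] at f2
    refine zmod2 _ _ _ _ f2 ⟨?_, ?_⟩
    · rw [← map_add]
      have hn : ‖(p (s P) + q (s P)) - (p (s Q) + q (s Q))‖ ≤ 1 := by
        have : (p (s P) + q (s P)) - (p (s Q) + q (s Q)) = ((S1 + S2 : ℤ_[2]) : ℚ_[2]) := by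
          rw [PadicInt.coe_add]
          simp only [hS1, hS2, hS]
          rw [hps, hqs]
          ring
        rw [this]
        exact (S1 + S2).2
      have h6 := hf _ _ hn
      have h7 : f (p (s P) + q (s P)) = f (p (s Q) + q (s Q)) := congrArg Prod.fst hcc
      rw [h7, sub_self] at h6
      rw [h6]
      congr 1
      apply Subtype.ext
      rw [PadicInt.coe_add]
      simp only [hS1, hS2, hS]
      rw [hps, hqs]
      ring
    · rw [← map_add]
      have hn : ‖(p (t P) + q (t P)) - (p (t Q) + q (t Q))‖ ≤ 1 := by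
        have : (p (t P) + q (t P)) - (p (t Q) + q (t Q)) = ((T1 + T2 : ℤ_[2]) : ℚ_[2]) := by
          rw [PadicInt.coe_add]
          simp only [hT1, hT2, hT]
          rw [hps, hqs]
          ring
        rw [this]
        exact (T1 + T2).2
      have h6 := hf _ _ hn
      have h7 : f (p (t P) + q (t P)) = f (p (t Q) + q (t Q)) := congrArg Prod.snd hcc
      rw [h7, sub_self] at h6
      rw [h6]
      congr 1
      apply Subtype.ext
      rw [PadicInt.coe_add]
      simp only [hT1, hT2, hT]
      rw [hps, hqs]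
      ring
  have hcard : Fintype.card (ZMod 2 × ZMod 2) = 4 := rfl
  have := (SimpleGraph.Coloring.mk c (fun {P Q} h => hc h)).colorable
  rwa [hcard] at this

end Pool.Agent.Helper7_UD
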