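import Pool.Agent.Helper7_UD.Upper

namespace Pool.Agent.Helper7_UD

open IntermediateField

lemma adj_iff (P Q : K × K) :
    (unitDistanceGraph K).Adj P Q ↔ (P.1 - Q.1) ^ 2 + (P.2 - Q.2) ^ 2 = 1 := by
  constructor
  · intro h
    apply Subtype.ext
    simpa [unitDistanceGraph] using h
  · intro h
    have := congrArg (fun x : K => (x : ℝ)) h
    simpa [unitDistanceGraph] using this

lemma fin3 (a p q d : Fin 3) (h1 : a ≠ p) (h2 : a ≠ q) (h3 : p ≠ q) (h4 : d ≠ p)
    (h5 : d ≠ q) : a = d := by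
  omega

/-- The Moser spindle lives in `K × K`. -/
theorem not_colorable_three : ¬ (unitDistanceGraph K).Colorable 3 := by
  rintro ⟨c⟩
  have hv : ∀ {P Q : K × K}, (P.1 - Q.1) ^ 2 + (P.2 - Q.2) ^ 2 = 1 → c P ≠ c Q := by
    intro P Q h
    exact c.valid ((adj_iff P Q).2 h)
  have h3 := r3_sq
  have h11 := r11_sq
  have i2 : (2 : K)⁻¹ * 2 = 1 := inv_mul_cancel₀ (by norm_num)
  let A : K × K := (0, 0)
  let D1 : K × K := (1 / 2, r11 / 2)
  let D2 : K × K := (-1 / 2, r11 / 2)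
  let P1 : K × K := (1 / 4 - r3 * r11 / 12, r11 / 4 + r3 / 12)
  let P2 : K × K := (1 / 4 + r3 * r11 / 12, r11 / 4 - r3 / 12)
  let Q1 : K × K := (-1 / 4 + r3 * r11 / 12, r11 / 4 + r3 / 12)
  let Q2 : K × K := (-1 / 4 - r3 * r11 / 12, r11 / 4 - r3 / 12)
  have e1 : c A = c D1 := by
    apply fin3 _ (c P1) (c P2) <;> apply hv <;> simp only [A, D1, P1, P2]
    · linear_combination (r11 ^ 2 / 144 + 1 / 144) * h3 + (1 / 16 + 3 / 144) * h11
    · linear_combination (r11 ^ 2 / 144 + 1 / 144) * h3 + (1 / 16 + 3 / 144) * h11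
    · linear_combination (r11 ^ 2 / 36 + 1 / 36) * h3 + (3 / 36) * h11
    · linear_combination (r11 ^ 2 / 144 + 1 / 144) * h3 + (1 / 16 + 3 / 144) * h11
    · linear_combination (r11 ^ 2 / 144 + 1 / 144) * h3 + (1 / 16 + 3 / 144) * h11
  have e2 : c A = c D2 := by
    apply fin3 _ (c Q1) (c Q2) <;> apply hv <;> simp only [A, D2, Q1, Q2]
    · linear_combination (r11 ^ 2 / 144 + 1 / 144) * h3 + (1 / 16 + 3 / 144) * h11
    · linear_combination (r11 ^ 2 / 144 + 1 / 144) * h3 + (1 / 16 + 3 / 144) * h11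
    · linear_combination (r11 ^ 2 / 36 + 1 / 36) * h3 + (3 / 36) * h11
    · linear_combination (r11 ^ 2 / 144 + 1 / 144) * h3 + (1 / 16 + 3 / 144) * h11
    · linear_combination (r11 ^ 2 / 144 + 1 / 144) * h3 + (1 / 16 + 3 / 144) * h11
  have e3 : c D1 ≠ c D2 := by
    apply hv
    simp only [D1, D2]
    ring
  exact e3 (e1.symm.trans e2)

theorem chromaticNumber_eq_four : (unitDistanceGraph K).chromaticNumber = 4 := by
  apply le_antisymm
  · exact_mod_cast colorable_four.chromaticNumber_le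
  · by_contra hcon
    push Not at hcon
    apply not_colorable_three
    rw [← SimpleGraph.chromaticNumber_le_iff_colorable]
    obtain ⟨n, hn⟩ := ENat.ne_top_iff_exists.1 (ne_top_of_lt hcon)
    rw [← hn] at hcon ⊢
    have h4 : n < 4 := by exact_mod_cast hcon
    exact_mod_cast (by omega : n ≤ 3)

end Pool.Agent.Helper7_UD
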