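import Pool.Agent.Helper7_UD.Defs

namespace Pool.Agent.Helper7_UD

open Polynomial

lemma toZModPow_ofNat (n k : ℕ) [k.AtLeastTwo] :
    (PadicInt.toZModPow (p := 2) n) (OfNat.ofNat k : ℤ_[2]) = (OfNat.ofNat k : ZMod (2 ^ n)) :=
  map_ofNat _ k

lemma not_sq_three (x : ℚ_[2]) (h : x ^ 2 = 3) : False := by
  have h3 : ‖(3 : ℚ_[2])‖ = 1 := by
    have := Padic.norm_natCast_eq_one_iff (p := 2) (n := 3)
    exact_mod_cast this.2 (by norm_num)
  have h1 : ‖x‖ = 1 := by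
    have h2 : ‖x‖ ^ 2 = 1 := by rw [← norm_pow, h, h3]
    have := norm_nonneg x
    nlinarith
  set y : ℤ_[2] := ⟨x, h1.le⟩ with hy
  have hy2 : y ^ 2 = ((3 : ℕ) : ℤ_[2]) := by
    apply Subtype.ext
    rw [PadicInt.coe_pow, hy, PadicInt.coe_natCast]
    simpa using h
  have h4 := congrArg (PadicInt.toZModPow (p := 2) 2) hy2
  rw [map_pow, map_natCast] at h4
  revert h4
  generalize (PadicInt.toZModPow (p := 2) 2) y = z
  revert z
  decide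

lemma exists_sq_33 : ∃ ρ : ℚ_[2], ρ ^ 2 = 33 := by
  have hn : ‖(X ^ 2 - C (33 : ℤ_[2]) : ℤ_[2][X]).aeval (1 : ℤ_[2])‖ <
      ‖(X ^ 2 - C (33 : ℤ_[2]) : ℤ_[2][X]).derivative.aeval (1 : ℤ_[2])‖ ^ 2 := by
    have h1 : (X ^ 2 - C (33 : ℤ_[2]) : ℤ_[2][X]).aeval (1 : ℤ_[2]) = - (2 : ℤ_[2]) ^ 5 := by
      rw [Polynomial.aeval_sub, Polynomial.aeval_C]
      simp
      norm_num
    have h2 : (X ^ 2 - C (33 : ℤ_[2]) : ℤ_[2][X]).derivative.aeval (1 : ℤ_[2]) = (2 : ℤ_[2]) := by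
      rw [Polynomial.derivative_sub, Polynomial.derivative_C]
      simp
      norm_num
    rw [h1, h2]
    have h5 : ‖(2 : ℤ_[2])‖ = (2 : ℝ)⁻¹ := by
      have := PadicInt.norm_p (p := 2)
      exact_mod_cast this
    rw [norm_neg, norm_pow, h5]
    norm_num
  obtain ⟨z, hz, -⟩ := hensels_lemma hn
  refine ⟨(z : ℚ_[2]), ?_⟩
  rw [Polynomial.aeval_sub, Polynomial.aeval_C] at hz
  have h6 : z ^ 2 - ((33 : ℕ) : ℤ_[2]) = 0 := by
    simpa using hz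
  have h7 : z ^ 2 = ((33 : ℕ) : ℤ_[2]) := sub_eq_zero.1 h6
  have := congrArg (fun w : ℤ_[2] => (w : ℚ_[2])) h7
  simp only [PadicInt.coe_pow, PadicInt.coe_natCast] at this
  exact_mod_cast this

lemma norm_lt_one_of_two_mul {W : ℤ_[2]} (h : 2 * (PadicInt.toZModPow (p := 2) 2) W = 0) :
    ‖W‖ < 1 := by
  have h1 : (PadicInt.toZModPow (p := 2) 2) (2 * W) = 0 := by
    rw [map_mul, map_ofNat]
    exact h
  rw [← RingHom.mem_ker, PadicInt.ker_toZModPow, ← PadicInt.norm_le_pow_iff_mem_span_pow,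
    norm_mul] at h1
  have h5 : ‖(2 : ℤ_[2])‖ = (2 : ℝ)⁻¹ := by
    have := PadicInt.norm_p (p := 2)
    exact_mod_cast this
  rw [h5] at h1
  have h6 : ((2 : ℕ) : ℝ) ^ (-((2 : ℕ) : ℤ)) = 1 / 4 := by norm_num
  rw [h6] at h1
  linarith

lemma zmod4 : ∀ s1 s2 t1 t2 : ZMod (2 ^ 2),
    s1 ^ 2 + 3 * s2 ^ 2 - (s1 * t1 + 3 * (s2 * t2)) + (t1 ^ 2 + 3 * t2 ^ 2) = 0 →
    2 * (s1 * s2) - (s1 * t2 + s2 * t1) + 2 * (t1 * t2) = 0 →
    2 * s1 = 0 ∧ 2 * s2 = 0 ∧ 2 * t1 = 0 ∧ 2 * t2 = 0 := by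
  decide

/-- The two equations saying `s² - s t + t² = 1` for `s = s₁ + s₂ √3`, `t = t₁ + t₂ √3`. -/
lemma integral_of_eq {s1 s2 t1 t2 : ℚ_[2]}
    (h1 : s1 ^ 2 + 3 * s2 ^ 2 - (s1 * t1 + 3 * (s2 * t2)) + (t1 ^ 2 + 3 * t2 ^ 2) = 1)
    (h2 : 2 * (s1 * s2) - (s1 * t2 + s2 * t1) + 2 * (t1 * t2) = 0) :
    ‖s1‖ ≤ 1 ∧ ‖s2‖ ≤ 1 ∧ ‖t1‖ ≤ 1 ∧ ‖t2‖ ≤ 1 := by
  set M : ℝ := max (max ‖s1‖ ‖s2‖) (max ‖t1‖ ‖t2‖) with hM
  have hs1 : ‖s1‖ ≤ M := (le_max_left _ _).trans (le_max_left _ _)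
  have hs2 : ‖s2‖ ≤ M := (le_max_right _ _).trans (le_max_left _ _)
  have ht1 : ‖t1‖ ≤ M := (le_max_left _ _).trans (le_max_right _ _)
  have ht2 : ‖t2‖ ≤ M := (le_max_right _ _).trans (le_max_right _ _)
  rcases le_or_gt M 1 with hM1 | hM1
  · exact ⟨hs1.trans hM1, hs2.trans hM1, ht1.trans hM1, ht2.trans hM1⟩
  · exfalso
    have hMw : ‖s1‖ = M ∨ ‖s2‖ = M ∨ ‖t1‖ = M ∨ ‖t2‖ = M := by
      rcases max_choice (max ‖s1‖ ‖s2‖) (max ‖t1‖ ‖t2‖) with h | h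
      · rcases max_choice ‖s1‖ ‖s2‖ with h' | h'
        · exact Or.inl (by rw [hM, h, h'])
        · exact Or.inr (Or.inl (by rw [hM, h, h']))
      · rcases max_choice ‖t1‖ ‖t2‖ with h' | h'
        · exact Or.inr (Or.inr (Or.inl (by rw [hM, h, h'])))
        · exact Or.inr (Or.inr (Or.inr (by rw [hM, h, h'])))
    -- M is a power of 2
    obtain ⟨m, hm⟩ : ∃ m : ℕ, M = (2 : ℝ) ^ (m + 1) := by
      have key : ∀ w : ℚ_[2], ‖w‖ = M → ∃ m : ℕ, M = (2 : ℝ) ^ (m + 1) := by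
        intro w hw
        have hw0 : w ≠ 0 := by
          intro h0
          rw [h0, norm_zero] at hw
          linarith
        have h3 := Padic.norm_eq_zpow_neg_valuation hw0
        rw [hw] at h3
        have h4 : 0 < -w.valuation := by
          by_contra hcon
          push Not at hcon
          have : ((2 : ℕ) : ℝ) ^ (-w.valuation) ≤ 1 := zpow_le_one_of_nonpos₀ (by norm_num) hcon
          linarith
        refine ⟨(-w.valuation - 1).toNat, ?_⟩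
        rw [h3, ← zpow_natCast]
        have : (((-w.valuation - 1).toNat + 1 : ℕ) : ℤ) = -w.valuation := by
          push_cast
          rw [Int.toNat_of_nonneg (by omega)]
          ring
        rw [this]
        norm_num
      rcases hMw with h | h | h | h
      · exact key _ h
      · exact key _ h
      · exact key _ h
      · exact key _ h
    set c : ℚ_[2] := (2 : ℚ_[2]) ^ (m + 1) with hc
    have hcn : ‖c‖ = M⁻¹ := by
      have h5 : ‖(2 : ℚ_[2])‖ = (2 : ℝ)⁻¹ := by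
        have := Padic.norm_p (p := 2)
        exact_mod_cast this
      rw [hc, norm_pow, h5, hm, inv_pow]
    have hM0 : 0 < M := by linarith
    have hle : ∀ w : ℚ_[2], ‖w‖ ≤ M → ‖c * w‖ ≤ 1 := by
      intro w hw
      rw [norm_mul, hcn]
      calc M⁻¹ * ‖w‖ ≤ M⁻¹ * M := mul_le_mul_of_nonneg_left hw (by positivity)
        _ = 1 := inv_mul_cancel₀ hM0.ne'
    set S1 : ℤ_[2] := ⟨c * s1, hle _ hs1⟩ with hS1
    set S2 : ℤ_[2] := ⟨c * s2, hle _ hs2⟩ with hS2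
    set T1 : ℤ_[2] := ⟨c * t1, hle _ ht1⟩ with hT1
    set T2 : ℤ_[2] := ⟨c * t2, hle _ ht2⟩ with hT2
    have e1 : S1 ^ 2 + 3 * S2 ^ 2 - (S1 * T1 + 3 * (S2 * T2)) + (T1 ^ 2 + 3 * T2 ^ 2) =
        2 ^ 2 * 2 ^ (2 * m) := by
      apply Subtype.ext
      have h3 : ((3 : ℤ_[2]) : ℚ_[2]) = 3 := by
        have := PadicInt.coe_natCast (p := 2) 3
        exact_mod_cast this
      have h4 : ((2 : ℤ_[2]) : ℚ_[2]) = 2 := by
        have := PadicInt.coe_natCast (p := 2) 2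
        exact_mod_cast this
      push_cast
      rw [h3, h4]
      simp only [hS1, hS2, hT1, hT2]
      have : c ^ 2 * (s1 ^ 2 + 3 * s2 ^ 2 - (s1 * t1 + 3 * (s2 * t2)) + (t1 ^ 2 + 3 * t2 ^ 2)) =
        c ^ 2 := by rw [h1, mul_one]
      rw [show (2 : ℚ_[2]) ^ 2 * 2 ^ (2 * m) = c ^ 2 by rw [hc]; ring, ← this]
      ring
    have e2 : 2 * (S1 * S2) - (S1 * T2 + S2 * T1) + 2 * (T1 * T2) = 0 := by
      apply Subtype.ext
      have h4 : ((2 : ℤ_[2]) : ℚ_[2]) = 2 := by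
        have := PadicInt.coe_natCast (p := 2) 2
        exact_mod_cast this
      push_cast
      rw [h4]
      simp only [hS1, hS2, hT1, hT2]
      have : c ^ 2 * (2 * (s1 * s2) - (s1 * t2 + s2 * t1) + 2 * (t1 * t2)) = 0 := by
        rw [h2, mul_zero]
      rw [← this]
      ring
    have f1 := congrArg (PadicInt.toZModPow (p := 2) 2) e1
    have f2 := congrArg (PadicInt.toZModPow (p := 2) 2) e2
    simp only [map_add, map_sub, map_mul, map_pow, map_ofNat, map_zero] at f1 f2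
    have hz : (2 : ZMod (2 ^ 2)) ^ 2 * 2 ^ (2 * m) = 0 := by
      have : (2 : ZMod (2 ^ 2)) ^ 2 = 0 := by decide
      rw [this, zero_mul]
    rw [hz] at f1
    obtain ⟨g1, g2, g3, g4⟩ := zmod4 _ _ _ _ f1 f2
    have k : ∀ w : ℚ_[2], ∀ hw : ‖c * w‖ ≤ 1, ‖w‖ = M → @norm ℤ_[2] _ ⟨c * w, hw⟩ = 1 := by
      intro w hw hwM
      change ‖c * w‖ = 1
      rw [norm_mul, hcn, hwM, inv_mul_cancel₀ hM0.ne']
    rcases hMw with h | h | h | h
    · exact absurd (k _ (hle _ hs1) h) (norm_lt_one_of_two_mul g1).ne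
    · exact absurd (k _ (hle _ hs2) h) (norm_lt_one_of_two_mul g2).ne
    · exact absurd (k _ (hle _ ht1) h) (norm_lt_one_of_two_mul g3).ne
    · exact absurd (k _ (hle _ ht2) h) (norm_lt_one_of_two_mul g4).ne

lemma zmod2 : ∀ s1 s2 t1 t2 : ZMod 2,
    s1 ^ 2 + 3 * s2 ^ 2 - (s1 * t1 + 3 * (s2 * t2)) + (t1 ^ 2 + 3 * t2 ^ 2) = 1 →
    ¬ (s1 + s2 = 0 ∧ t1 + t2 = 0) := by
  decide

/-- additive function on cosets -/
lemma exists_digit : ∃ f : ℚ_[2] → ZMod 2, ∀ a b : ℚ_[2], ∀ h : ‖a - b‖ ≤ 1,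
    f a - f b = PadicInt.toZMod (⟨a - b, h⟩ : ℤ_[2]) := by
  let Z : AddSubgroup ℚ_[2] := (PadicInt.subring 2).toAddSubgroup
  have hZ : ∀ x : ℚ_[2], x ∈ Z ↔ ‖x‖ ≤ 1 := fun x => Iff.rfl
  let r : ℚ_[2] → ℚ_[2] := fun x => Quotient.out (QuotientAddGroup.mk x : ℚ_[2] ⧸ Z)
  have hr : ∀ x, ‖x - r x‖ ≤ 1 := by
    intro x
    rw [← hZ]
    have h1 : (QuotientAddGroup.mk (r x) : ℚ_[2] ⧸ Z) = QuotientAddGroup.mk x := Quotient.out_eq _
    have h2 := QuotientAddGroup.eq.1 h1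
    have : x - r x = - r x + x := by ring
    rw [this]
    exact h2
  refine ⟨fun x => PadicInt.toZMod (⟨x - r x, hr x⟩ : ℤ_[2]), ?_⟩
  intro a b h
  have hab : r a = r b := by
    have : (QuotientAddGroup.mk a : ℚ_[2] ⧸ Z) = QuotientAddGroup.mk b := by
      rw [QuotientAddGroup.eq]
      have : -a + b = -(a - b) := by ring
      rw [this]
      exact Z.neg_mem ((hZ _).2 h)
    simp only [r, this]
  simp only
  rw [← map_sub]
  congr 1
  apply Subtype.ext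
  rw [PadicInt.coe_sub]
  simp only
  rw [hab]
  ring

end Pool.Agent.Helper7_UD
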